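import Mathlib

/-!
# The coefficient sequences of the D'Arcais polynomials are not all log-concave

Let `a_{n,k}` be the coefficients of the D'Arcais polynomials. Then `a_{n,1} = σ(n) / n` is
unbounded (`n = M!`), while `a_{n,2} ≤ 8 n` and `a_{n,3} ≥ (n - 1) (n - 2) / 12`. So
`a_{n,2} ^ 2 < a_{n,1} a_{n,3}` for `n = M!`, `M` large.
-/

set_option autoImplicit false

open Finset Polynomial

namespace Run7.h814.DArcais

/-- the recursion -/
def Rec (P : ℕ → ℚ[X]) : Prop := P 0 = 1 ∧ ∀ n : ℕ, 1 ≤ n →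
  (n : ℚ[X]) * P n = X * ∑ k ∈ Icc 1 n, ((ArithmeticFunction.sigma 1 k : ℕ) : ℚ[X]) * P (n - k)

/-- the D'Arcais polynomials -/
noncomputable def PP : ℕ → ℚ[X]
  | 0 => 1
  | n + 1 => C ((1 : ℚ) / ((n + 1 : ℕ) : ℚ)) * (X * ∑ i : Fin (n + 1),
      ((ArithmeticFunction.sigma 1 (n + 1 - i) : ℕ) : ℚ[X]) * PP i)

theorem rec_PP : Rec PP := by
  refine ⟨by rw [PP], ?_⟩
  intro n hn
  obtain ⟨m, rfl⟩ : ∃ m, n = m + 1 := ⟨n - 1, by omega⟩
  have h1 : ((m + 1 : ℕ) : ℚ[X]) * PP (m + 1) = X * ∑ i : Fin (m + 1),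
      ((ArithmeticFunction.sigma 1 (m + 1 - i) : ℕ) : ℚ[X]) * PP i := by
    rw [PP, ← mul_assoc]
    have : ((m + 1 : ℕ) : ℚ[X]) * C ((1 : ℚ) / ((m + 1 : ℕ) : ℚ)) = 1 := by
      rw [← C_eq_natCast, ← C_mul, mul_one_div_cancel (by positivity), C_1]
    rw [this, one_mul]
  rw [h1]
  congr 1
  rw [Finset.sum_range (fun i => ((ArithmeticFunction.sigma 1 (m + 1 - i) : ℕ) : ℚ[X]) * PP i) |>.symm]
  refine Finset.sum_nbij' (fun i => m + 1 - i) (fun k => m + 1 - k) ?_ ?_ ?_ ?_ ?_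
  · intro i hi; rw [Finset.mem_range] at hi; rw [Finset.mem_Icc]; omega
  · intro k hk; rw [Finset.mem_Icc] at hk; rw [Finset.mem_range]; omega
  · intro i hi; rw [Finset.mem_range] at hi; omega
  · intro k hk; rw [Finset.mem_Icc] at hk; omega
  · intro i hi
    rw [Finset.mem_range] at hi
    have : m + 1 - (m + 1 - i) = i := by omega
    rw [this]

/-- `σ(j) / j` -/
noncomputable def f (j : ℕ) : ℚ := ∑ d ∈ j.divisors, (1 : ℚ) / d

theorem sigma_eq (j : ℕ) (hj : 1 ≤ j) : ((ArithmeticFunction.sigma 1 j : ℕ) : ℚ) = j * f j := by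
  have hj0 : (j : ℚ) ≠ 0 := by positivity
  rw [f, ArithmeticFunction.sigma_one_apply, Finset.mul_sum, ← Nat.sum_div_divisors j (fun d => d)]
  rw [Nat.cast_sum]
  refine Finset.sum_congr rfl fun d hd => ?_
  have hdj : d ∣ j := Nat.dvd_of_mem_divisors hd
  have hd0 : d ≠ 0 := by rintro rfl; simp at hd
  rw [Nat.cast_div hdj (by exact_mod_cast hd0)]
  ring

theorem one_le_f (j : ℕ) (hj : 1 ≤ j) : 1 ≤ f j := by
  rw [f]
  calc (1 : ℚ) = 1 / ((1 : ℕ) : ℚ) := by norm_num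
    _ ≤ _ := Finset.single_le_sum (f := fun d : ℕ => (1 : ℚ) / d) (fun d _ => by positivity)
      (Nat.one_mem_divisors.mpr (by omega))

section Coeff
variable {P : ℕ → ℚ[X]} (h : Rec P)
include h

theorem coeff_succ (n k : ℕ) (hn : 1 ≤ n) : (n : ℚ) * (P n).coeff (k + 1) =
    ∑ j ∈ Icc 1 n, (j * f j) * (P (n - j)).coeff k := by
  have h1 := congrArg (fun p => p.coeff (k + 1)) (h.2 n hn)
  simp only [coeff_natCast_mul, coeff_X_mul, finsetSum_coeff] at h1
  rw [h1]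
  refine Finset.sum_congr rfl fun j hj => ?_
  rw [Finset.mem_Icc] at hj
  rw [sigma_eq j hj.1]

theorem coeff_zero' (n : ℕ) (hn : 1 ≤ n) : (P n).coeff 0 = 0 := by
  have h1 : (n : ℚ) * (P n).coeff 0 = 0 := by
    rw [← coeff_natCast_mul, h.2 n hn, mul_coeff_zero, coeff_X_zero, zero_mul]
  rcases mul_eq_zero.mp h1 with h2 | h2
  · exfalso; have : n = 0 := by exact_mod_cast h2
    omega
  · exact h2

theorem coeff_one (n : ℕ) (hn : 1 ≤ n) : (P n).coeff 1 = f n := by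
  have h1 := coeff_succ h n 0 hn
  have h2 : ∑ j ∈ Icc 1 n, (j * f j) * (P (n - j)).coeff 0 = n * f n := by
    rw [Finset.sum_eq_single n]
    · rw [Nat.sub_self, h.1]; simp
    · intro j hj hjn
      rw [Finset.mem_Icc] at hj
      rw [coeff_zero' h (n - j) (by omega), mul_zero]
    · intro hn'
      exact absurd (Finset.mem_Icc.mpr ⟨hn, le_rfl⟩) hn'
  rw [h2] at h1
  have hn0 : (n : ℚ) ≠ 0 := by positivity
  exact mul_left_cancel₀ hn0 h1

theorem coeff_one_zero : (P 0).coeff 1 = 0 := by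
  rw [h.1, Polynomial.coeff_one]; norm_num

theorem coeff_two (n : ℕ) (hn : 1 ≤ n) : (n : ℚ) * (P n).coeff 2 =
    ∑ j ∈ Ico 1 n, (j * f j) * f (n - j) := by
  rw [coeff_succ h n 1 hn, ← Finset.sum_subset (s₁ := Ico 1 n) (s₂ := Icc 1 n)]
  · refine Finset.sum_congr rfl fun j hj => ?_
    rw [Finset.mem_Ico] at hj
    rw [coeff_one h (n - j) (by omega)]
  · exact Finset.Ico_subset_Icc_self
  · intro j hj hj'
    rw [Finset.mem_Icc] at hj
    rw [Finset.mem_Ico] at hj'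
    have : j = n := by omega
    rw [this, Nat.sub_self, coeff_one_zero h, mul_zero]

theorem coeff_two_zero : (P 0).coeff 2 = 0 := by
  rw [h.1, Polynomial.coeff_one]; norm_num

theorem coeff_two_ge (n : ℕ) (hn : 1 ≤ n) : ((n : ℚ) - 1) / 2 ≤ (P n).coeff 2 := by
  have h1 := coeff_two h n hn
  have hn0 : (0 : ℚ) < n := by positivity
  have h2 : ∑ j ∈ Ico 1 n, (j : ℚ) ≤ ∑ j ∈ Ico 1 n, (j * f j) * f (n - j) := by
    refine Finset.sum_le_sum fun j hj => ?_
    rw [Finset.mem_Ico] at hj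
    have e1 := one_le_f j hj.1
    have e2 := one_le_f (n - j) (by omega)
    have hj0 : (0 : ℚ) ≤ j := by positivity
    calc (j : ℚ) = j * 1 * 1 := by ring
      _ ≤ j * f j * f (n - j) := by gcongr
  have h3 : ∑ j ∈ Ico 1 n, (j : ℚ) = n * (n - 1) / 2 := by
    have e : ∑ j ∈ range n, (j : ℚ) = n * (n - 1) / 2 := by
      have := Finset.sum_range_id_mul_two n
      have h4 : ((∑ i ∈ range n, i : ℕ) : ℚ) * 2 = n * ((n - 1 : ℕ) : ℚ) := by exact_mod_cast this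
      rw [Nat.cast_sum, Nat.cast_sub hn] at h4
      push_cast at h4
      linarith
    rw [← e, Finset.range_eq_Ico, Finset.sum_eq_sum_Ico_succ_bot (by omega : 0 < n)]
    simp
  rw [h3, ← h1] at h2
  have : (n : ℚ) * (((n : ℚ) - 1) / 2) ≤ n * (P n).coeff 2 := by linarith
  exact le_of_mul_le_mul_left this hn0

theorem coeff_three_ge (n : ℕ) (hn : 1 ≤ n) : ((n : ℚ) - 1) * (n - 2) / 12 ≤ (P n).coeff 3 := by
  have h1 := coeff_succ h n 2 hn
  have hn0 : (0 : ℚ) < n := by positivity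
  have h2 : ∑ j ∈ Ico 1 n, (j : ℚ) * (((n : ℚ) - j - 1) / 2) ≤
      ∑ j ∈ Icc 1 n, (j * f j) * (P (n - j)).coeff 2 := by
    rw [← Finset.sum_subset (s₁ := Ico 1 n) (s₂ := Icc 1 n)]
    · refine Finset.sum_le_sum fun j hj => ?_
      rw [Finset.mem_Ico] at hj
      have e1 := one_le_f j hj.1
      have e2 := coeff_two_ge h (n - j) (by omega)
      rw [Nat.cast_sub hj.2.le] at e2
      have hj0 : (0 : ℚ) ≤ j := by positivity
      have e3 : (0 : ℚ) ≤ ((n : ℚ) - j - 1) / 2 := by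
        have : ((j + 1 : ℕ) : ℚ) ≤ n := by exact_mod_cast hj.2
        push_cast at this
        linarith
      calc (j : ℚ) * (((n : ℚ) - j - 1) / 2) = j * 1 * (((n : ℚ) - j - 1) / 2) := by ring
        _ ≤ j * f j * (P (n - j)).coeff 2 := by gcongr
    · exact Finset.Ico_subset_Icc_self
    · intro j hj hj'
      rw [Finset.mem_Icc] at hj
      rw [Finset.mem_Ico] at hj'
      have : j = n := by omega
      rw [this, Nat.sub_self, coeff_two_zero h, mul_zero]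
  have h3 : ∀ m : ℕ, ∑ j ∈ range m, (j : ℚ) = m * (m - 1) / 2 := by
    intro m
    induction m with
    | zero => simp
    | succ m ih => rw [Finset.sum_range_succ, ih]; push_cast; ring
  have h4 : ∀ m : ℕ, ∑ j ∈ range m, (j : ℚ) ^ 2 = m * (m - 1) * (2 * m - 1) / 6 := by
    intro m
    induction m with
    | zero => simp
    | succ m ih => rw [Finset.sum_range_succ, ih]; push_cast; ring
  have h5 : ∑ j ∈ Ico 1 n, (j : ℚ) * (((n : ℚ) - j - 1) / 2) = n * ((n : ℚ) - 1) * (n - 2) / 12 := by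
    have e : ∑ j ∈ range n, (j : ℚ) * (((n : ℚ) - j - 1) / 2) =
        ((n : ℚ) - 1) / 2 * ∑ j ∈ range n, (j : ℚ) - 1 / 2 * ∑ j ∈ range n, (j : ℚ) ^ 2 := by
      rw [Finset.mul_sum, Finset.mul_sum, ← Finset.sum_sub_distrib]
      refine Finset.sum_congr rfl fun j _ => ?_
      ring
    rw [h3, h4] at e
    have e2 : ∑ j ∈ range n, (j : ℚ) * (((n : ℚ) - j - 1) / 2) =
        ∑ j ∈ Ico 1 n, (j : ℚ) * (((n : ℚ) - j - 1) / 2) := by
      rw [Finset.range_eq_Ico, Finset.sum_eq_sum_Ico_succ_bot (by omega : 0 < n)]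
      simp
    rw [← e2, e]
    ring
  rw [h5] at h2
  have h6 : (n : ℚ) * (((n : ℚ) - 1) * (n - 2) / 12) ≤ n * (P n).coeff 3 := by
    rw [h1]; linarith
  exact le_of_mul_le_mul_left h6 hn0

end Coeff

/-- `∑ f(j)²` is at most `8 N`. -/
theorem sum_sq (N : ℕ) : ∑ j ∈ Icc 1 N, f j ^ 2 ≤ 8 * N := by
  -- pointwise: `f j ^ 2 ≤ 2 ∑_{d ∣ j} (1/d) ∑_{e ≤ d} 1/e`
  have h1 : ∀ j ∈ Icc 1 N, f j ^ 2 ≤
      2 * ∑ d ∈ Icc 1 N, ∑ e ∈ Icc 1 d, if d ∣ j then (1 : ℚ) / d * (1 / e) else 0 := by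
    intro j hj
    rw [Finset.mem_Icc] at hj
    have hsub : j.divisors ⊆ Icc 1 N := by
      intro d hd
      have := Nat.divisor_le hd
      have h0 := Nat.pos_of_mem_divisors hd
      rw [Finset.mem_Icc]; omega
    have e1 : f j ^ 2 = ∑ d ∈ j.divisors, ∑ e ∈ j.divisors, (1 : ℚ) / d * (1 / e) := by
      rw [f, sq, Finset.sum_mul_sum]
    have e2 : ∑ d ∈ j.divisors, ∑ e ∈ j.divisors, (1 : ℚ) / d * (1 / e) ≤
        ∑ d ∈ j.divisors, ∑ e ∈ j.divisors, ((if e ≤ d then (1 : ℚ) / d * (1 / e) else 0) +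
          (if d ≤ e then (1 : ℚ) / d * (1 / e) else 0)) := by
      refine Finset.sum_le_sum fun d _ => Finset.sum_le_sum fun e _ => ?_
      have h0 : (0 : ℚ) ≤ 1 / d * (1 / e) := by positivity
      rcases le_total e d with h | h
      · rw [if_pos h]; split_ifs <;> linarith
      · rw [if_pos h]; split_ifs <;> linarith
    have e3 : ∑ d ∈ j.divisors, ∑ e ∈ j.divisors, ((if e ≤ d then (1 : ℚ) / d * (1 / e) else 0) +
          (if d ≤ e then (1 : ℚ) / d * (1 / e) else 0)) =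
        2 * ∑ d ∈ j.divisors, ∑ e ∈ j.divisors, (if e ≤ d then (1 : ℚ) / d * (1 / e) else 0) := by
      simp only [Finset.sum_add_distrib]
      have : ∑ d ∈ j.divisors, ∑ e ∈ j.divisors, (if d ≤ e then (1 : ℚ) / d * (1 / e) else 0) =
          ∑ d ∈ j.divisors, ∑ e ∈ j.divisors, (if e ≤ d then (1 : ℚ) / d * (1 / e) else 0) := by
        rw [Finset.sum_comm]
        refine Finset.sum_congr rfl fun d _ => Finset.sum_congr rfl fun e _ => ?_
        split_ifs <;> ring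
      rw [this]; ring
    have e4 : ∑ d ∈ j.divisors, ∑ e ∈ j.divisors, (if e ≤ d then (1 : ℚ) / d * (1 / e) else 0) ≤
        ∑ d ∈ Icc 1 N, ∑ e ∈ Icc 1 d, if d ∣ j then (1 : ℚ) / d * (1 / e) else 0 := by
      have hd : ∀ d ∈ j.divisors, ∑ e ∈ j.divisors, (if e ≤ d then (1 : ℚ) / d * (1 / e) else 0) ≤
          ∑ e ∈ Icc 1 d, if d ∣ j then (1 : ℚ) / d * (1 / e) else 0 := by
        intro d hd
        have hdj := Nat.dvd_of_mem_divisors hd
        rw [← Finset.sum_filter]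
        simp only [if_pos hdj]
        refine Finset.sum_le_sum_of_subset_of_nonneg ?_ fun e _ _ => by positivity
        intro e he
        rw [Finset.mem_filter] at he
        have := Nat.pos_of_mem_divisors he.1
        rw [Finset.mem_Icc]; omega
      refine (Finset.sum_le_sum hd).trans ?_
      refine Finset.sum_le_sum_of_subset_of_nonneg hsub fun d _ _ => ?_
      refine Finset.sum_nonneg fun e _ => ?_
      split_ifs <;> positivity
    rw [e1]
    linarith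
  -- sum over `j`
  have h2 : ∑ j ∈ Icc 1 N, ∑ d ∈ Icc 1 N, ∑ e ∈ Icc 1 d,
      (if d ∣ j then (1 : ℚ) / d * (1 / e) else 0) ≤
      ∑ d ∈ Icc 1 N, ∑ e ∈ Icc 1 d, (N : ℚ) / d * ((1 : ℚ) / d * (1 / e)) := by
    rw [Finset.sum_comm]
    refine Finset.sum_le_sum fun d hd => ?_
    rw [Finset.sum_comm]
    refine Finset.sum_le_sum fun e _ => ?_
    rw [← Finset.sum_filter, Finset.sum_const, nsmul_eq_mul]
    rw [Finset.mem_Icc] at hd
    have hc : (((Icc 1 N).filter (fun j => d ∣ j)).card : ℚ) ≤ (N : ℚ) / d := by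
      have : ((Icc 1 N).filter (fun j => d ∣ j)).card = N / d := by
        have := Nat.card_multiples N d
        rw [← Nat.Ioc_filter_dvd_card_eq_div N d]
        rfl
      rw [this]
      exact Nat.cast_div_le
    have h0 : (0 : ℚ) ≤ 1 / d * (1 / e) := by positivity
    exact mul_le_mul_of_nonneg_right hc h0
  -- exchange: `∑_{e ≤ d} 1/(e d²) ≤ ∑_e (1/e) (2/e)`
  have h3 : ∑ d ∈ Icc 1 N, ∑ e ∈ Icc 1 d, (N : ℚ) / d * ((1 : ℚ) / d * (1 / e)) ≤
      ∑ e ∈ Icc 1 N, (N : ℚ) * (1 / e) * (2 / e) := by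
    have e1 : ∑ d ∈ Icc 1 N, ∑ e ∈ Icc 1 d, (N : ℚ) / d * ((1 : ℚ) / d * (1 / e)) =
        ∑ e ∈ Icc 1 N, ∑ d ∈ Icc e N, (N : ℚ) / d * ((1 : ℚ) / d * (1 / e)) := by
      refine Finset.sum_comm' ?_
      intro d e
      simp only [Finset.mem_Icc]
      omega
    rw [e1]
    refine Finset.sum_le_sum fun e he => ?_
    rw [Finset.mem_Icc] at he
    have e2 : ∑ d ∈ Icc e N, (N : ℚ) / d * ((1 : ℚ) / d * (1 / e)) =
        (N : ℚ) * (1 / e) * ∑ d ∈ Icc e N, ((d : ℚ) ^ 2)⁻¹ := by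
      rw [Finset.mul_sum]
      refine Finset.sum_congr rfl fun d _ => ?_
      rw [div_eq_mul_inv, sq, mul_inv]
      ring
    rw [e2]
    have e3 : ∑ d ∈ Icc e N, ((d : ℚ) ^ 2)⁻¹ ≤ 2 / e := by
      have h4 := sum_Ioo_inv_sq_le (α := ℚ) (e - 1) (N + 1)
      have h5 : Ioo (e - 1) (N + 1) = Icc e N := by
        ext x; simp only [Finset.mem_Ioo, Finset.mem_Icc]; omega
      rw [h5] at h4
      have h6 : ((e - 1 : ℕ) : ℚ) + 1 = e := by
        rw [Nat.cast_sub he.1]; push_cast; ring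
      rw [h6] at h4
      exact h4
    gcongr
  have h4 : ∑ e ∈ Icc 1 N, (N : ℚ) * (1 / e) * (2 / e) ≤ 4 * N := by
    have e1 : ∑ e ∈ Icc 1 N, (N : ℚ) * (1 / e) * (2 / e) =
        2 * N * ∑ e ∈ Icc 1 N, ((e : ℚ) ^ 2)⁻¹ := by
      rw [Finset.mul_sum]
      refine Finset.sum_congr rfl fun e _ => ?_
      rw [sq, mul_inv]
      ring
    have h5 := sum_Ioo_inv_sq_le (α := ℚ) 0 (N + 1)
    have h6 : Ioo 0 (N + 1) = Icc 1 N := by
      ext x; simp only [Finset.mem_Ioo, Finset.mem_Icc]; omega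
    rw [h6] at h5
    rw [e1]
    norm_num at h5
    have hN : (0 : ℚ) ≤ N := by positivity
    nlinarith
  calc ∑ j ∈ Icc 1 N, f j ^ 2 ≤ ∑ j ∈ Icc 1 N, 2 * ∑ d ∈ Icc 1 N, ∑ e ∈ Icc 1 d,
        (if d ∣ j then (1 : ℚ) / d * (1 / e) else 0) := Finset.sum_le_sum h1
    _ = 2 * ∑ j ∈ Icc 1 N, ∑ d ∈ Icc 1 N, ∑ e ∈ Icc 1 d,
        (if d ∣ j then (1 : ℚ) / d * (1 / e) else 0) := by rw [Finset.mul_sum]
    _ ≤ 8 * N := by linarith

theorem coeff_two_le {P : ℕ → ℚ[X]} (h : Rec P) (n : ℕ) (hn : 1 ≤ n) : (P n).coeff 2 ≤ 8 * n := by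
  have h1 := coeff_two h n hn
  have hn0 : (0 : ℚ) < n := by positivity
  have h2 : ∑ j ∈ Ico 1 n, (j * f j) * f (n - j) ≤ n * ∑ j ∈ Icc 1 n, f j ^ 2 := by
    have e1 : ∑ j ∈ Ico 1 n, (j * f j) * f (n - j) ≤
        ∑ j ∈ Ico 1 n, (n : ℚ) * ((f j ^ 2 + f (n - j) ^ 2) / 2) := by
      refine Finset.sum_le_sum fun j hj => ?_
      rw [Finset.mem_Ico] at hj
      have a1 := one_le_f j hj.1
      have a2 := one_le_f (n - j) (by omega)
      have a3 : (j : ℚ) ≤ n := by exact_mod_cast hj.2.le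
      have a4 : f j * f (n - j) ≤ (f j ^ 2 + f (n - j) ^ 2) / 2 := by nlinarith [sq_nonneg (f j - f (n - j))]
      calc (j : ℚ) * f j * f (n - j) = j * (f j * f (n - j)) := by ring
        _ ≤ n * (f j * f (n - j)) := by
            have : 0 ≤ f j * f (n - j) := by positivity
            exact mul_le_mul_of_nonneg_right a3 this
        _ ≤ _ := by gcongr
    have e2 : ∑ j ∈ Ico 1 n, f (n - j) ^ 2 = ∑ j ∈ Ico 1 n, f j ^ 2 := by
      refine Finset.sum_nbij' (fun j => n - j) (fun j => n - j) ?_ ?_ ?_ ?_ ?_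
      · intro j hj; simp only [Finset.mem_Ico] at *; omega
      · intro j hj; simp only [Finset.mem_Ico] at *; omega
      · intro j hj; simp only [Finset.mem_Ico] at *; omega
      · intro j hj; simp only [Finset.mem_Ico] at *; omega
      · intro j hj; rfl
    have e3 : ∑ j ∈ Ico 1 n, (n : ℚ) * ((f j ^ 2 + f (n - j) ^ 2) / 2) = n * ∑ j ∈ Ico 1 n, f j ^ 2 := by
      rw [← Finset.mul_sum, ← Finset.sum_div, Finset.sum_add_distrib, e2]
      ring
    have e4 : ∑ j ∈ Ico 1 n, f j ^ 2 ≤ ∑ j ∈ Icc 1 n, f j ^ 2 :=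
      Finset.sum_le_sum_of_subset_of_nonneg Finset.Ico_subset_Icc_self fun _ _ _ => by positivity
    rw [e3] at e1
    exact e1.trans (mul_le_mul_of_nonneg_left e4 hn0.le)
  have h3 := sum_sq n
  have h4 : (n : ℚ) * (P n).coeff 2 ≤ n * (8 * n) := by
    rw [h1]
    exact h2.trans (mul_le_mul_of_nonneg_left h3 hn0.le)
  exact le_of_mul_le_mul_left h4 hn0

/-- `f (M!)` is at least the harmonic number. -/
theorem f_factorial (M : ℕ) : ∑ i ∈ range M, (1 : ℚ) / (i + 1) ≤ f M.factorial := by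
  rw [f]
  have h1 : ∑ i ∈ range M, (1 : ℚ) / (i + 1) = ∑ d ∈ Icc 1 M, (1 : ℚ) / d := by
    refine Finset.sum_nbij' (fun i => i + 1) (fun d => d - 1) ?_ ?_ ?_ ?_ ?_
    · intro i hi; simp only [Finset.mem_range, Finset.mem_Icc] at *; omega
    · intro i hi; simp only [Finset.mem_range, Finset.mem_Icc] at *; omega
    · intro i hi; simp
    · intro i hi; simp only [Finset.mem_range, Finset.mem_Icc] at *; omega
    · intro i hi; push_cast; rfl
  rw [h1]
  refine Finset.sum_le_sum_of_subset_of_nonneg ?_ fun _ _ _ => by positivity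
  intro d hd
  rw [Finset.mem_Icc] at hd
  rw [Nat.mem_divisors]
  exact ⟨Nat.dvd_factorial hd.1 hd.2, (Nat.factorial_pos M).ne'⟩

/-- **The D'Arcais polynomials are not log-concave**: for `n = M!`, `M` large, one has
`a_{n,2} ^ 2 < a_{n,1} a_{n,3}`. -/
theorem exists_violation {P : ℕ → ℚ[X]} (h : Rec P) :
    ∃ n : ℕ, 1 ≤ n ∧ (P n).coeff 2 ^ 2 < (P n).coeff 1 * (P n).coeff 3 := by
  obtain ⟨M, hM⟩ := (Filter.tendsto_atTop_atTop.mp Real.tendsto_sum_range_one_div_nat_succ_atTop) 2000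
  have h1 : (2000 : ℚ) ≤ ∑ i ∈ range (max M 6), (1 : ℚ) / (i + 1) := by
    have := hM (max M 6) (le_max_left _ _)
    have e : ((∑ i ∈ range (max M 6), (1 : ℚ) / (i + 1) : ℚ) : ℝ) =
        ∑ i ∈ range (max M 6), (1 : ℝ) / (i + 1) := by push_cast; rfl
    rw [← e] at this
    have h2 : ((2000 : ℚ) : ℝ) ≤ ((∑ i ∈ range (max M 6), (1 : ℚ) / (i + 1) : ℚ) : ℝ) := by
      norm_num at this ⊢
      exact this
    exact Rat.cast_le.mp h2
  obtain ⟨n, hn⟩ : ∃ n, n = (max M 6).factorial := ⟨_, rfl⟩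
  have h2 : 2000 ≤ f n := by rw [hn]; exact h1.trans (f_factorial _)
  have h3 : 6 ≤ n := by
    rw [hn]
    exact (le_max_right M 6).trans (Nat.self_le_factorial _)
  refine ⟨n, by omega, ?_⟩
  have a1 := coeff_one h n (by omega)
  have a2 := coeff_two_le h n (by omega)
  have a2' := coeff_two_ge h n (by omega)
  have a3 := coeff_three_ge h n (by omega)
  have hn6 : (6 : ℚ) ≤ n := by exact_mod_cast h3
  have b2 : (P n).coeff 2 ^ 2 ≤ 64 * (n : ℚ) ^ 2 := by
    have : 0 ≤ (P n).coeff 2 := by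
      refine le_trans ?_ a2'
      have : (1 : ℚ) ≤ n := by linarith
      linarith
    nlinarith
  have b3 : (n : ℚ) ^ 2 / 24 ≤ (P n).coeff 3 := by
    refine le_trans ?_ a3
    nlinarith
  rw [a1]
  have hpos : (0 : ℚ) < (n : ℚ) ^ 2 := by positivity
  calc (P n).coeff 2 ^ 2 ≤ 64 * (n : ℚ) ^ 2 := b2
    _ < 2000 * ((n : ℚ) ^ 2 / 24) := by nlinarith
    _ ≤ f n * (P n).coeff 3 := by gcongr

end Run7.h814.DArcais
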